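import Pool.Agent.Lib.MP_e7a55d_co.Loc

/-!
The girth analogue holds with the explicit constant `c(F) = 2 |V(F)| ^ 3`, for graphs in which
every dense vertex set contains a copy of `F` and every small vertex set without a cut vertex
lies inside a copy of `F`.
-/

set_option autoImplicit false

namespace Pool.Agent.Results.MP_e7a55d_co.LocalCopies

open Pool.Agent.Lib.MP_e7a55d_co

theorem result {V : Type*} [Fintype V] (F : SimpleGraph V) (hF : ¬ F.IsAcyclic) (r L : ℕ) :
    ∃ (n : ℕ) (G : SimpleGraph (Fin n)),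
      ¬ G.Colorable r ∧ G.egirth = F.egirth ∧
      (∀ S : Set (Fin n), (∀ T : Set (Fin n), T ⊆ S → IsEmpty (G.induce T ≃g F)) →
        (G.induce S).Colorable (2 * Fintype.card V ^ 3)) ∧
      (∀ S : Finset (Fin n), n ≤ r * S.card →
        ∃ T : Set (Fin n), T ⊆ S ∧ Nonempty (G.induce T ≃g F)) ∧
      ∀ W : Finset (Fin n), W.card ≤ L → (G.induce (W : Set (Fin n))).Connected →
        (∀ v ∈ W, (G.induce ((W : Set (Fin n)) \ {v})).Connected) →
        ∃ T : Set (Fin n), (W : Set (Fin n)) ⊆ T ∧ Nonempty (G.induce T ≃g F) := by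
  classical
  let e0 : Fin (Fintype.card V) ≃ V := (Fintype.equivFin V).symm
  let φ0 : F.comap e0 ≃g F := SimpleGraph.Iso.comap e0 F
  obtain ⟨s, n, G, h1, h2, h3, h4, h5⟩ := main_loc (Fintype.card V) (F.comap e0)
    (fun h => hF (φ0.isAcyclic_iff.1 h)) r L
  let e : Fin (s * n) ≃ Fin s × Fin n := finProdFinEquiv.symm
  let φ : G.comap e ≃g G := SimpleGraph.Iso.comap e G
  have ψ : ∀ S : Set (Fin (s * n)), (G.comap e).induce S ≃g G.induce (e '' S) := fun S =>
    { toEquiv := e.image S
      map_rel_iff' := by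
        intro a b
        rfl }
  have back : ∀ f : F.comap e0 ↪g G,
      Nonempty ((G.comap e).induce (Set.range (e.symm ∘ f)) ≃g F) := fun f =>
    ⟨(φ.symm.toEmbedding.comp f).isoInduceRange.symm.trans φ0⟩
  refine ⟨s * n, G.comap e, ?_, ?_, ?_, ?_, ?_⟩
  · intro hcon
    exact h1 ((SimpleGraph.colorable_congr φ).mp (hcon.mono (Nat.le_succ r)))
  · rw [φ.egirth_eq, h2, φ0.egirth_eq]
  · intro S hS
    rw [SimpleGraph.colorable_congr (ψ S),
      show 2 * Fintype.card V ^ 3 = Fintype.card V * (2 * Fintype.card V ^ 2) by ring]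
    refine h3 _ ⟨fun f => ?_⟩
    let g : F ↪g (G.comap e).induce S :=
      (ψ S).symm.toEmbedding.comp (f.comp φ0.symm.toEmbedding)
    let g' : F ↪g G.comap e := (SimpleGraph.Embedding.induce S).comp g
    refine (hS (Set.range g') ?_).false g'.isoInduceRange.symm
    rintro _ ⟨v, rfl⟩
    exact (g v).2
  · intro S hS
    obtain ⟨f, hf⟩ := h4 (S.map e.toEmbedding) (by rwa [Finset.card_map])
    refine ⟨_, ?_, back f⟩
    rintro _ ⟨a, rfl⟩
    exact Finset.mem_map_equiv.1 (hf a)
  · intro W k1 k2 k3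
    obtain ⟨f, hf⟩ := h5 (W.map e.toEmbedding) (by rwa [Finset.card_map])
      (by rw [Finset.coe_map]; exact (ψ _).connected_iff.1 k2) fun v hv => by
        have := (ψ _).connected_iff.1 (k3 _ (Finset.mem_map_equiv.1 hv))
        rw [Set.image_sdiff e.injective, Set.image_singleton, e.apply_symm_apply] at this
        rw [Finset.coe_map]
        exact this
    refine ⟨_, fun w hw => ?_, back f⟩
    obtain ⟨a, ha⟩ := hf (e w) (Finset.mem_map_of_mem _ hw)
    exact ⟨a, e.symm_apply_eq.2 ha.symm⟩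

end Pool.Agent.Results.MP_e7a55d_co.LocalCopies
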